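import Mathlib

/-! # Blocks for minimal asymptotic bases

The first part of the starting file `MP_f804be_nt/RMinimalBases` (parameters, covering lemma and rigidity
lemma of one block), copied unchanged. -/

set_option autoImplicit false

namespace Pool.Agent.Y973.RM

open Finset

/-- `n` lies in the `h`-fold sumset `hA`: it is a sum of `h` elements of `A`, repetitions
allowed. -/
def InSumset (A : Set ℕ) (h n : ℕ) : Prop :=
  ∃ f : Fin h → ℕ, (∀ i, f i ∈ A) ∧ ∑ i, f i = n

/-- `A` is an asymptotic basis of order `h`: only finitely many natural numbers are not in `hA`. -/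
def IsAsymptoticBasis (h : ℕ) (A : Set ℕ) : Prop :=
  {n : ℕ | ¬ InSumset A h n}.Finite

/-- multiset form of `InSumset` -/
def SumOf (A : Set ℕ) (h n : ℕ) : Prop :=
  ∃ s : Multiset ℕ, s.card = h ∧ (∀ x ∈ s, x ∈ A) ∧ s.sum = n

lemma inSumset_iff (A : Set ℕ) (h n : ℕ) : InSumset A h n ↔ SumOf A h n := by
  constructor
  · rintro ⟨f, hf, hsum⟩
    refine ⟨Finset.univ.val.map f, by simp, ?_, hsum⟩
    intro x hx
    rw [Multiset.mem_map] at hx
    obtain ⟨i, -, rfl⟩ := hx
    exact hf i
  · rintro ⟨s, hs1, hs2, hs3⟩
    induction s using Quotient.inductionOn with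
    | _ l =>
      have hl : l.length = h := by simpa using hs1
      subst hl
      refine ⟨fun i => l.get i, fun i => hs2 _ (by simp), ?_⟩
      have h1 : l.sum = n := by simpa using hs3
      rw [← h1, ← List.sum_ofFn]
      congr 1
      exact List.ofFn_get l

/-! ### The parameters of one block.  The order is `h = g + 2`. -/

/-- the length parameter -/
def W (g m : ℕ) : ℕ := (g + 2) * (m + 1) + 1

/-- the position parameter -/
def P (g m : ℕ) : ℕ := (g + 2) * W g m + 2

/-- the special number of the block -/
def nx (g m : ℕ) : ℕ := (2 * g + 3) * P g m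

/-- the generic part of the block -/
def Base (g m : ℕ) : Set ℕ :=
  {x | (m + 1 ≤ x ∧ x ≤ W g m + m + 2) ∨ x = P g m ∨
    (P g m + m + 1 ≤ x ∧ x ≤ P g m + W g m) ∨
    ((g + 2) * P g m + 1 ≤ x ∧ x + m + 1 ≤ (g + 2) * P g m + W g m)}

/-- the special part of the block -/
def Extra (g m : ℕ) (S : Finset ℕ) : Set ℕ := {x | ∃ s ∈ S, x + s = (g + 3) * P g m}

lemma interval_sum (a b c N : ℕ) (hab : a ≤ b) (h1 : c * a ≤ N) (h2 : N ≤ c * b) :
    ∃ T : Multiset ℕ, T.card = c ∧ (∀ x ∈ T, a ≤ x ∧ x ≤ b) ∧ T.sum = N := by
  induction c generalizing N with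
  | zero =>
    refine ⟨0, by simp, by simp, ?_⟩
    have : N = 0 := by omega
    simp [this]
  | succ c ih =>
    have e1 : (c + 1) * a = c * a + a := by ring
    have e2 : (c + 1) * b = c * b + b := by ring
    rw [e1] at h1
    rw [e2] at h2
    have e3 : c * a ≤ c * b := Nat.mul_le_mul_left c hab
    by_cases hx : b ≤ N - c * a
    · obtain ⟨T, hT1, hT2, hT3⟩ := ih (N - b) (by omega) (by omega)
      refine ⟨b ::ₘ T, by simp [hT1], ?_, ?_⟩
      · intro x hx
        rcases Multiset.mem_cons.1 hx with rfl | hx
        · exact ⟨hab, le_rfl⟩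
        · exact hT2 x hx
      · rw [Multiset.sum_cons, hT3]
        omega
    · obtain ⟨T, hT1, hT2, hT3⟩ := ih (c * a) le_rfl e3
      refine ⟨(N - c * a) ::ₘ T, by simp [hT1], ?_, ?_⟩
      · intro x hx
        rcases Multiset.mem_cons.1 hx with rfl | hx
        · constructor <;> omega
        · exact hT2 x hx
      · rw [Multiset.sum_cons, hT3]
        omega

/-- `j` elements from the second part and `c ≥ 1` elements from the first part. -/
lemma cover_type (g m j c N : ℕ) (hc : 1 ≤ c) (hjc : j + c ≤ g + 2)
    (h1 : j * P g m + c * (m + 1) ≤ N) (h2 : N ≤ j * (P g m + W g m) + c * (W g m + m + 2)) :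
    ∃ T : Multiset ℕ, T.card = j + c ∧ (∀ x ∈ T, x ∈ Base g m) ∧ T.sum = N := by
  have hw : W g m = (g + 2) * (m + 1) + 1 := rfl
  have hp : P g m = (g + 2) * W g m + 2 := rfl
  have hwm : (j + c) * (m + 1) ≤ (g + 2) * (m + 1) := Nat.mul_le_mul_right _ hjc
  have ewm : (j + c) * (m + 1) = j * (m + 1) + c * (m + 1) := by ring
  have hm1 : m + 1 ≤ W g m := by
    rw [hw]
    nlinarith
  have hcL : W g m + m + 2 ≤ c * (W g m + m + 2) := Nat.le_mul_of_pos_left _ hc
  have e1 : j * (P g m + W g m) = j * P g m + j * W g m := by ring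
  have e2 : j * (P g m + m + 1) = j * P g m + j * (m + 1) := by ring
  have e3 : c * (m + 1) ≤ c * (W g m + m + 2) := Nat.mul_le_mul_left c (by omega)
  have e4 : j * (m + 1) ≤ j * W g m := Nat.mul_le_mul_left j hm1
  by_cases hA : N ≤ j * P g m + c * (W g m + m + 2)
  · obtain ⟨T, hT1, hT2, hT3⟩ := interval_sum (m + 1) (W g m + m + 2) c (N - j * P g m)
      (by omega) (by omega) (by omega)
    refine ⟨Multiset.replicate j (P g m) + T, by simp [hT1], ?_, ?_⟩
    · intro x hx
      rcases Multiset.mem_add.1 hx with hx | hx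
      · rw [Multiset.eq_of_mem_replicate hx]
        exact Or.inr (Or.inl rfl)
      · exact Or.inl (hT2 x hx)
    · rw [Multiset.sum_add, Multiset.sum_replicate, hT3, smul_eq_mul]
      omega
  · by_cases hB : N ≤ j * P g m + j * (m + 1) + c * (W g m + m + 2)
    · obtain ⟨T, hT1, hT2, hT3⟩ := interval_sum (m + 1) (W g m + m + 2) c
        (N - j * P g m - j * (m + 1)) (by omega) (by omega) (by omega)
      refine ⟨Multiset.replicate j (P g m + m + 1) + T, by simp [hT1], ?_, ?_⟩
      · intro x hx
        rcases Multiset.mem_add.1 hx with hx | hx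
        · rw [Multiset.eq_of_mem_replicate hx]
          exact Or.inr (Or.inr (Or.inl ⟨by omega, by omega⟩))
        · exact Or.inl (hT2 x hx)
      · rw [Multiset.sum_add, Multiset.sum_replicate, hT3, smul_eq_mul]
        omega
    · obtain ⟨T, hT1, hT2, hT3⟩ := interval_sum (P g m + m + 1) (P g m + W g m) j
        (N - c * (W g m + m + 2)) (by omega) (by omega) (by omega)
      refine ⟨T + Multiset.replicate c (W g m + m + 2), by simp [hT1], ?_, ?_⟩
      · intro x hx
        rcases Multiset.mem_add.1 hx with hx | hx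
        · exact Or.inr (Or.inr (Or.inl (hT2 x hx)))
        · rw [Multiset.eq_of_mem_replicate hx]
          exact Or.inl ⟨by omega, by omega⟩
      · rw [Multiset.sum_add, Multiset.sum_replicate, hT3, smul_eq_mul]
        omega

/-- everything from `h (m + 1)` up to `h P + m` is covered. -/
lemma cover_low (g m j N : ℕ) (hj : j ≤ g + 1) (h1 : (g + 2) * (m + 1) ≤ N)
    (h2 : N + 2 ≤ (j + 1) * P g m + (g + 2 - j) * (m + 2)) :
    ∃ T : Multiset ℕ, T.card = g + 2 ∧ (∀ x ∈ T, x ∈ Base g m) ∧ T.sum = N := by
  have hw : W g m = (g + 2) * (m + 1) + 1 := rfl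
  have hp : P g m = (g + 2) * W g m + 2 := rfl
  induction j generalizing N with
  | zero =>
    obtain ⟨T, hT⟩ := cover_type g m 0 (g + 2) N (by omega) (by omega) (by omega) (by
      have : (g + 2) * (W g m + m + 2) = (g + 2) * W g m + (g + 2) * (m + 2) := by ring
      simp only [zero_add, one_mul, Nat.sub_zero] at h2
      omega)
    exact ⟨T, by simpa using hT⟩
  | succ j ih =>
    by_cases hN : N + 2 ≤ (j + 1) * P g m + (g + 2 - j) * (m + 2)
    · exact ih N (by omega) h1 hN
    · obtain ⟨c, hc⟩ : ∃ c, g + 2 = j + 1 + (c + 1) := ⟨g - j, by omega⟩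
      have e1 : g + 2 - j = c + 2 := by omega
      have e2 : g + 2 - (j + 1) = c + 1 := by omega
      rw [e1] at hN
      rw [e2] at h2
      have e3 : (c + 2) * (m + 2) = (c + 1) * (m + 1) + m + c + 3 := by ring
      have e4 : (j + 1 + 1) * P g m = (j + 1) * P g m + P g m := by ring
      have e5 : (j + 1) * (P g m + W g m) = (j + 1) * P g m + (j + 1) * W g m := by ring
      have e6 : (c + 1) * (W g m + m + 2) = (c + 1) * W g m + (c + 1) * (m + 2) := by ring
      have e7 : (g + 2) * W g m = (j + 1) * W g m + (c + 1) * W g m := by rw [hc]; ring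
      obtain ⟨T, hT⟩ := cover_type g m (j + 1) (c + 1) N (by omega) (by omega) (by omega) (by omega)
      refine ⟨T, ?_, hT.2⟩
      rw [hT.1, hc]

/-- one element of the last part, `j` of the second, `c ≥ 1` of the first -/
lemma cover_type' (g m j c N : ℕ) (hc : 1 ≤ c) (hjc : j + c + 1 = g + 2)
    (h1 : (g + 2) * P g m + 1 + j * P g m + c * (m + 1) ≤ N)
    (h2 : N + m + 1 ≤ (g + 2) * P g m + W g m + j * (P g m + W g m) + c * (W g m + m + 2)) :
    ∃ T : Multiset ℕ, T.card = g + 2 ∧ (∀ x ∈ T, x ∈ Base g m) ∧ T.sum = N := by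
  have hw : W g m = (g + 2) * (m + 1) + 1 := rfl
  have hm1 : m + 2 ≤ W g m := by
    rw [hw]
    nlinarith
  have e1 : j * P g m + c * (m + 1) ≤ j * (P g m + W g m) + c * (W g m + m + 2) :=
    Nat.add_le_add (Nat.mul_le_mul_left j (by omega)) (Nat.mul_le_mul_left c (by omega))
  by_cases hA : N ≤ (g + 2) * P g m + 1 + (j * (P g m + W g m) + c * (W g m + m + 2))
  · obtain ⟨T, hT1, hT2, hT3⟩ := cover_type g m j c (N - ((g + 2) * P g m + 1)) hc (by omega)
      (by omega) (by omega)
    refine ⟨((g + 2) * P g m + 1) ::ₘ T, by simp [hT1]; omega, ?_, ?_⟩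
    · intro x hx
      rcases Multiset.mem_cons.1 hx with rfl | hx
      · exact Or.inr (Or.inr (Or.inr ⟨by omega, by omega⟩))
      · exact hT2 x hx
    · rw [Multiset.sum_cons, hT3]
      omega
  · obtain ⟨T, hT1, hT2, hT3⟩ := cover_type g m j c
      (j * (P g m + W g m) + c * (W g m + m + 2)) hc (by omega) (by omega) (by omega)
    refine ⟨(N - (j * (P g m + W g m) + c * (W g m + m + 2))) ::ₘ T, by simp [hT1]; omega, ?_, ?_⟩
    · intro x hx
      rcases Multiset.mem_cons.1 hx with rfl | hx
      · exact Or.inr (Or.inr (Or.inr ⟨by omega, by omega⟩))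
      · exact hT2 x hx
    · rw [Multiset.sum_cons, hT3]
      omega

/-- everything from `h P + 1 + (h - 1) (m + 1)` up to `nx - 1` is covered. -/
lemma cover_high (g m j N : ℕ) (hj : j ≤ g) (h1 : (g + 2) * P g m + 1 + (g + 1) * (m + 1) ≤ N)
    (h2 : N + m + 3 ≤ (g + 3 + j) * P g m + (g + 1 - j) * (m + 2)) :
    ∃ T : Multiset ℕ, T.card = g + 2 ∧ (∀ x ∈ T, x ∈ Base g m) ∧ T.sum = N := by
  have hw : W g m = (g + 2) * (m + 1) + 1 := rfl
  have hp : P g m = (g + 2) * W g m + 2 := rfl
  induction j generalizing N with
  | zero =>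
    have e1 : (g + 1) * (W g m + m + 2) = (g + 1) * W g m + (g + 1) * (m + 2) := by ring
    have e2 : (g + 3) * P g m = (g + 2) * P g m + P g m := by ring
    have e3 : (g + 2) * W g m = (g + 1) * W g m + W g m := by ring
    simp only [add_zero, Nat.sub_zero] at h2
    exact cover_type' g m 0 (g + 1) N (by omega) (by omega) (by omega) (by omega)
  | succ j ih =>
    by_cases hN : N + m + 3 ≤ (g + 3 + j) * P g m + (g + 1 - j) * (m + 2)
    · exact ih N (by omega) h1 hN
    · obtain ⟨c, hc⟩ : ∃ c, g + 1 = j + 1 + (c + 1) ∨ (c = 0 ∧ g = j) := by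
        rcases Nat.lt_or_ge j g with h | h
        · exact ⟨g - j - 1, Or.inl (by omega)⟩
        · exact ⟨0, Or.inr ⟨rfl, by omega⟩⟩
      rcases hc with hc | ⟨-, hc⟩
      · have e1 : g + 1 - j = c + 2 := by omega
        have e2 : g + 1 - (j + 1) = c + 1 := by omega
        rw [e1] at hN
        rw [e2] at h2
        have e3 : (c + 2) * (m + 2) = (c + 1) * (m + 1) + m + c + 3 := by ring
        have e4 : (g + 3 + (j + 1)) * P g m = (g + 3 + j) * P g m + P g m := by ring
        have e5 : (j + 1) * (P g m + W g m) = (j + 1) * P g m + (j + 1) * W g m := by ring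
        have e6 : (c + 1) * (W g m + m + 2) = (c + 1) * W g m + (c + 1) * (m + 2) := by ring
        have e7 : (g + 2) * W g m = (j + 1) * W g m + (c + 1) * W g m + W g m := by
          rw [show g + 2 = j + 1 + (c + 1) + 1 by omega]; ring
        have e8 : (g + 3 + j) * P g m = (g + 2) * P g m + (j + 1) * P g m := by ring
        exact cover_type' g m (j + 1) (c + 1) N (by omega) (by omega) (by omega) (by omega)
      · omega

/-- the complete covering statement of one block, up to `nx + (h - 1)(m + 1)`. -/
lemma cover_block (g m N : ℕ) (h1 : (g + 2) * (m + 1) ≤ N)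
    (h2 : N ≤ nx g m + (g + 1) * (m + 1)) (hne : N ≠ nx g m) :
    ∃ T : Multiset ℕ, T.card = g + 2 ∧ (∀ x ∈ T, x ∈ Base g m) ∧ T.sum = N := by
  have hw : W g m = (g + 2) * (m + 1) + 1 := rfl
  have hp : P g m = (g + 2) * W g m + 2 := rfl
  have hn : nx g m = (2 * g + 3) * P g m := rfl
  have ea : (g + 2) * (m + 1) = (g + 1) * (m + 1) + m + 1 := by ring
  have eb : (g + 2) * P g m = (g + 1) * P g m + P g m := by ring
  have ec : (2 * g + 3) * P g m = (g + 2) * P g m + (g + 1) * P g m := by ring
  by_cases c1 : N ≤ (g + 2) * P g m + m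
  · refine cover_low g m (g + 1) N le_rfl h1 ?_
    have : g + 2 - (g + 1) = 1 := by omega
    rw [this]
    have e : (g + 1 + 1) * P g m = (g + 2) * P g m := by ring
    omega
  by_cases c2 : N ≤ (g + 2) * P g m + W g m
  · refine ⟨(P g m + (N - (g + 2) * P g m)) ::ₘ Multiset.replicate (g + 1) (P g m), by simp, ?_, ?_⟩
    · intro x hx
      rcases Multiset.mem_cons.1 hx with rfl | hx
      · exact Or.inr (Or.inr (Or.inl ⟨by omega, by omega⟩))
      · rw [Multiset.eq_of_mem_replicate hx]
        exact Or.inr (Or.inl rfl)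
    · rw [Multiset.sum_cons, Multiset.sum_replicate, smul_eq_mul]
      omega
  by_cases c3 : N + 1 ≤ nx g m
  · refine cover_high g m g N le_rfl (by omega) ?_
    have : g + 1 - g = 1 := by omega
    rw [this]
    have e : (g + 3 + g) * P g m = (2 * g + 3) * P g m := by ring
    omega
  · refine ⟨(N - (g + 1) * P g m) ::ₘ Multiset.replicate (g + 1) (P g m), by simp, ?_, ?_⟩
    · intro x hx
      rcases Multiset.mem_cons.1 hx with rfl | hx
      · exact Or.inr (Or.inr (Or.inr ⟨by omega, by omega⟩))
      · rw [Multiset.eq_of_mem_replicate hx]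
        exact Or.inr (Or.inl rfl)
    · rw [Multiset.sum_cons, Multiset.sum_replicate, smul_eq_mul]
      omega

/-- splitting a multiset into small and big elements -/
lemma split_sum (L p w : ℕ) (T : Multiset ℕ) (hT : ∀ x ∈ T, x ≤ L ∨ (p ≤ x ∧ x ≤ p + w)) :
    ∃ t, t ≤ T.card ∧ t * p ≤ T.sum ∧ T.sum ≤ t * (p + w) + (T.card - t) * L := by
  induction T using Multiset.induction_on with
  | empty => exact ⟨0, by simp⟩
  | cons a T ih =>
    obtain ⟨t, h1, h2, h3⟩ := ih (fun x hx => hT x (Multiset.mem_cons_of_mem hx))
    rw [Multiset.sum_cons, Multiset.card_cons]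
    rcases hT a (Multiset.mem_cons_self a T) with h | h
    · refine ⟨t, by omega, by omega, ?_⟩
      have : T.card + 1 - t = T.card - t + 1 := by omega
      rw [this, add_mul (T.card - t) 1 L]
      omega
    · refine ⟨t + 1, by omega, ?_, ?_⟩
      · rw [add_mul]
        omega
      · have : T.card + 1 - (t + 1) = T.card - t := by omega
        rw [this, add_mul t 1 (p + w)]
        omega

/-- if all elements are at least `p`, with a gap after `p`, and the sum is close to minimal, then
the sum is minimal. -/
lemma rigid_sum (p m : ℕ) (T : Multiset ℕ) (hT : ∀ x ∈ T, x = p ∨ p + m + 1 ≤ x) :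
    T.card * p ≤ T.sum ∧ (T.sum ≤ T.card * p + m → T.sum = T.card * p) := by
  induction T using Multiset.induction_on with
  | empty => simp
  | cons a T ih =>
    obtain ⟨h1, h2⟩ := ih (fun x hx => hT x (Multiset.mem_cons_of_mem hx))
    rw [Multiset.sum_cons, Multiset.card_cons, add_mul]
    rcases hT a (Multiset.mem_cons_self a T) with h | h
    · constructor
      · omega
      · intro h3
        have := h2 (by omega)
        omega
    · constructor
      · omega
      · intro h3
        omega

/-- the special number `nx` is not a sum of `h` elements of the block and of old elements outside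
`S`. -/
lemma no_rep (g m : ℕ) (S : Finset ℕ) (hS : ∀ s ∈ S, s ≤ m) (T : Multiset ℕ)
    (hc : T.card = g + 2)
    (hT : ∀ x ∈ T, (x ≤ m ∧ x ∉ S) ∨ x ∈ Base g m ∨ x ∈ Extra g m S) : T.sum ≠ nx g m := by
  have hw : W g m = (g + 2) * (m + 1) + 1 := rfl
  have hp : P g m = (g + 2) * W g m + 2 := rfl
  have hn : nx g m = (2 * g + 3) * P g m := rfl
  have hwm : 2 * (m + 1) < W g m := by
    rw [hw]
    nlinarith
  have hwp : 2 * W g m + 2 ≤ P g m := by
    rw [hp]
    nlinarith
  have ea : (2 * g + 3) * P g m = g * P g m + (g + 3) * P g m := by ring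
  have eb : (g + 3) * P g m = (g + 2) * P g m + P g m := by ring
  have ec : (g + 2) * P g m = (g + 1) * P g m + P g m := by ring
  have ed : (g + 1) * P g m = g * P g m + P g m := by ring
  have ee : (g + 2) * W g m = g * W g m + 2 * W g m := by ring
  intro hsum
  by_cases hE : ∃ x ∈ T, x ∈ Extra g m S
  · obtain ⟨b, hb, s, hs, hbs⟩ := hE
    obtain ⟨U, rfl⟩ := Multiset.exists_cons_of_mem hb
    rw [Multiset.sum_cons] at hsum
    rw [Multiset.card_cons] at hc
    have hsm := hS s hs
    have hUsum : U.sum = g * P g m + s := by omega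
    have hUc : U.card = g + 1 := by omega
    -- membership of the remaining elements
    have hU : ∀ x ∈ U, (x ≤ W g m + m + 2 ∧ x ∉ S) ∨
        ((x = P g m ∨ P g m + m + 1 ≤ x) ∧ x ≤ P g m + W g m) := by
      intro x hx
      have hxs : x ≤ U.sum := Multiset.le_sum_of_mem hx
      rcases hT x (Multiset.mem_cons_of_mem hx) with h | h | ⟨s', hs', h⟩
      · exact Or.inl ⟨by omega, h.2⟩
      · rcases h with h | h | h | h
        · refine Or.inl ⟨h.2, fun h' => ?_⟩
          have := hS x h'
          omega
        · exact Or.inr ⟨Or.inl h, by omega⟩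
        · exact Or.inr ⟨Or.inr h.1, h.2⟩
        · omega
      · have := hS s' hs'
        omega
    obtain ⟨t, ht1, ht2, ht3⟩ := split_sum (W g m + m + 2) (P g m) (W g m) U (by
      intro x hx
      rcases hU x hx with h | h
      · exact Or.inl h.1
      · exact Or.inr ⟨by omega, h.2⟩)
    -- number of big elements, exactly
    set B := U.filter (fun x => ¬ x ≤ W g m + m + 2) with hB
    set L := U.filter (fun x => x ≤ W g m + m + 2) with hL
    have hLB : L + B = U := Multiset.filter_add_not _ U
    have hBr := rigid_sum (P g m) m B (by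
      intro x hx
      rw [hB, Multiset.mem_filter] at hx
      rcases hU x hx.1 with h | h
      · exact absurd h.1 hx.2
      · exact h.1)
    have hcard : L.card + B.card = g + 1 := by rw [← Multiset.card_add, hLB, hUc]
    have hsumLB : L.sum + B.sum = g * P g m + s := by rw [← Multiset.sum_add, hLB, hUsum]
    have hLsum : L.sum ≤ L.card * (W g m + m + 2) := by
      have := Multiset.sum_le_card_nsmul L (W g m + m + 2) (by
        intro x hx
        rw [hL, Multiset.mem_filter] at hx
        exact hx.2)
      simpa using this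
    have hBsum : B.sum ≤ B.card * (P g m + W g m) := by
      have := Multiset.sum_le_card_nsmul B (P g m + W g m) (by
        intro x hx
        rw [hB, Multiset.mem_filter] at hx
        rcases hU x hx.1 with h | h
        · exact absurd h.1 hx.2
        · exact h.2)
      simpa using this
    rcases Nat.lt_trichotomy B.card g with hBg | hBg | hBg
    · -- too few big elements
      obtain ⟨c, hcc⟩ : ∃ c, g = B.card + (c + 1) := ⟨g - B.card - 1, by omega⟩
      have hLc : L.card = c + 2 := by omega
      rw [hLc] at hLsum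
      have e1 : g * P g m = B.card * P g m + (c + 1) * P g m := by
        rw [← add_mul, ← hcc]
      have e2 : B.card * (P g m + W g m) = B.card * P g m + B.card * W g m := by ring
      have e3 : g * W g m = B.card * W g m + (c + 1) * W g m := by
        rw [← add_mul, ← hcc]
      have e4 : (c + 2) * (W g m + m + 2) = (c + 1) * W g m + W g m + c * (m + 2) + 2 * m + 4 := by
        ring
      have e5 : (c + 1) * P g m = P g m + c * P g m := by ring
      have e6 : c * (m + 2) ≤ c * P g m := Nat.mul_le_mul_left c (by omega)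
      omega
    · -- exactly `g = h - 2` big elements
      have hLc : L.card = 1 := by omega
      rw [hBg] at hBr
      have h1 := hBr.2 (by omega)
      obtain ⟨l, hl⟩ := Multiset.card_eq_one.1 hLc
      have hls : l = s := by
        rw [hl, Multiset.sum_singleton] at hsumLB
        omega
      have hlL : l ∈ L := by rw [hl]; exact Multiset.mem_singleton_self l
      rw [hL, Multiset.mem_filter] at hlL
      rcases hU l hlL.1 with h | h
      · exact h.2 (hls ▸ hs)
      · omega
    · have : (g + 1) * P g m ≤ B.card * P g m := Nat.mul_le_mul_right _ hBg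
      omega
  · push Not at hE
    by_cases hB2 : ∃ x ∈ T, (g + 2) * P g m + 1 ≤ x ∧ x + m + 1 ≤ (g + 2) * P g m + W g m
    · obtain ⟨x, hx, hx1, hx2⟩ := hB2
      obtain ⟨U, rfl⟩ := Multiset.exists_cons_of_mem hx
      rw [Multiset.sum_cons] at hsum
      rw [Multiset.card_cons] at hc
      have hUc : U.card = g + 1 := by omega
      obtain ⟨t, ht1, ht2, ht3⟩ := split_sum (W g m + m + 2) (P g m) (W g m) U (by
        intro y hy
        have hys : y ≤ U.sum := Multiset.le_sum_of_mem hy
        rcases hT y (Multiset.mem_cons_of_mem hy) with h | h | h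
        · exact Or.inl (by omega)
        · rcases h with h | h | h | h
          · exact Or.inl h.2
          · exact Or.inr ⟨by omega, by omega⟩
          · exact Or.inr ⟨by omega, h.2⟩
          · omega
        · exact absurd h (hE y (Multiset.mem_cons_of_mem hy)))
      rw [hUc] at ht1 ht3
      have ht4 : t ≤ g := by
        by_contra hcon
        have : t = g + 1 := by omega
        subst this
        omega
      obtain ⟨c, hcc⟩ : ∃ c, g = t + c := ⟨g - t, by omega⟩
      have e0 : g + 1 - t = c + 1 := by omega
      rw [e0] at ht3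
      have e1 : g * P g m = t * P g m + c * P g m := by
        rw [← add_mul, ← hcc]
      have e2 : t * (P g m + W g m) = t * P g m + t * W g m := by ring
      have e3 : g * W g m = t * W g m + c * W g m := by
        rw [← add_mul, ← hcc]
      have e4 : (c + 1) * (W g m + m + 2) = c * (W g m + m + 2) + W g m + m + 2 := by ring
      have e5 : c * (W g m + m + 2) ≤ c * P g m := Nat.mul_le_mul_left c (by omega)
      have e6 : c * W g m ≤ c * (W g m + m + 2) := Nat.mul_le_mul_left c (by omega)
      omega
    · push Not at hB2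
      have h1 : T.sum ≤ T.card * (P g m + W g m) := by
        have := Multiset.sum_le_card_nsmul T (P g m + W g m) (by
          intro y hy
          rcases hT y hy with h | h | h
          · omega
          · rcases h with h | h | h | h
            · omega
            · omega
            · exact h.2
            · have := hB2 y hy h.1
              omega
          · exact absurd h (hE y hy))
        simpa using this
      rw [hc] at h1
      have e2 : (g + 2) * (P g m + W g m) = (g + 2) * P g m + (g + 2) * W g m := by ring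
      omega


end Pool.Agent.Y973.RM
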