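import Mathlib
import Pool.Agent.Y973.RM.Block

/-! # Bases with a prescribed hereditary family of removable sets -/

set_option autoImplicit false

namespace Pool.Agent.Y973.RM

open Finset

/-! ### The sequence of index sets -/

open Classical in
/-- the index set treated in block `k`. -/
noncomputable def Fs (𝒦 : Set (Set ℕ)) (k : ℕ) : Finset ℕ :=
  if (∀ i ∈ (Denumerable.eqv (Finset ℕ)).symm k.unpair.1, i < k) ∧
      ((↑((Denumerable.eqv (Finset ℕ)).symm k.unpair.1) : Set ℕ) ∉ 𝒦 ∨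
        k.unpair.2 = ((Denumerable.eqv (Finset ℕ)).symm k.unpair.1).sup id + 1)
  then (Denumerable.eqv (Finset ℕ)).symm k.unpair.1
  else if k = 0 then ∅ else {k - 1}

theorem Fs_lt (𝒦 : Set (Set ℕ)) (k i : ℕ) (hi : i ∈ Fs 𝒦 k) : i < k := by
  unfold Fs at hi
  split_ifs at hi with h1 h2
  · exact h1.1 i hi
  · simp at hi
  · rw [Finset.mem_singleton] at hi
    omega

/-- for a member of the family only finitely many of the index sets lie in it. -/
theorem Fs_finite (𝒦 : Set (Set ℕ)) (hher : ∀ I ∈ 𝒦, ∀ J ⊆ I, J ∈ 𝒦) (I : Set ℕ) (hI : I ∈ 𝒦)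
    (hfin : I.Finite) : {k | (↑(Fs 𝒦 k) : Set ℕ) ⊆ I}.Finite := by
  have h1 : {k | (↑(Fs 𝒦 k) : Set ℕ) ⊆ I} ⊆
      ((fun S : Finset ℕ => Nat.pair (Denumerable.eqv (Finset ℕ) S) (S.sup id + 1)) ''
        {S : Finset ℕ | (↑S : Set ℕ) ⊆ I}) ∪ ({0} ∪ (fun i => i + 1) '' I) := by
    intro k hk
    have hk' : (↑(Fs 𝒦 k) : Set ℕ) ⊆ I := hk
    unfold Fs at hk'
    split_ifs at hk' with h1 h2
    · left
      refine ⟨(Denumerable.eqv (Finset ℕ)).symm k.unpair.1, hk', ?_⟩
      have h3 := h1.2.resolve_left (fun h => h (hher I hI _ hk'))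
      show Nat.pair _ (_ + 1) = k
      rw [Equiv.apply_symm_apply, ← h3, Nat.pair_unpair]
    · right; left; exact h2
    · right; right
      refine ⟨k - 1, hk' (by simp), ?_⟩
      show k - 1 + 1 = k
      omega
  refine Set.Finite.subset (Set.Finite.union ?_ (Set.Finite.union (Set.finite_singleton 0)
    (hfin.image _))) h1
  apply Set.Finite.image
  have h2 : {S : Finset ℕ | (↑S : Set ℕ) ⊆ I} ⊆ ↑(hfin.toFinset.powerset) := by
    intro S hS
    rw [Finset.mem_coe, Finset.mem_powerset]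
    intro x hx
    rw [Set.Finite.mem_toFinset]
    exact hS hx
  exact (Finset.finite_toSet _).subset h2

theorem Fs_pair (𝒦 : Set (Set ℕ)) (S : Finset ℕ) (j : ℕ) (hj : S.sup id + 1 ≤ j)
    (h : (↑S : Set ℕ) ∉ 𝒦 ∨ j = S.sup id + 1) :
    Fs 𝒦 (Nat.pair (Denumerable.eqv (Finset ℕ) S) j) = S := by
  unfold Fs
  rw [if_pos]
  · simp only [Nat.unpair_pair, Equiv.symm_apply_apply]
  · simp only [Nat.unpair_pair, Equiv.symm_apply_apply]
    refine ⟨?_, h⟩
    intro i hi
    have h1 : i ≤ S.sup id := Finset.le_sup (f := id) hi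
    have h2 := Nat.right_le_pair (Denumerable.eqv (Finset ℕ) S) j
    omega

/-- for every other set infinitely many index sets lie in it. -/
theorem Fs_infinite (𝒦 : Set (Set ℕ)) (I : Set ℕ) (hI : I ∉ 𝒦 ∨ I.Infinite) :
    {k | (↑(Fs 𝒦 k) : Set ℕ) ⊆ I}.Infinite := by
  by_cases hfin : I.Finite
  · have hI' : I ∉ 𝒦 := hI.resolve_right (fun h => h hfin)
    have hS : (↑hfin.toFinset : Set ℕ) = I := hfin.coe_toFinset
    have hinj : Function.Injective (fun j : ℕ =>
        Nat.pair (Denumerable.eqv (Finset ℕ) hfin.toFinset) (hfin.toFinset.sup id + 1 + j)) := by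
      intro a b hab
      have := (Nat.pair_eq_pair.mp hab).2
      omega
    refine (Set.infinite_range_of_injective hinj).mono ?_
    rintro _ ⟨j, rfl⟩
    show (↑(Fs 𝒦 _) : Set ℕ) ⊆ I
    rw [Fs_pair 𝒦 hfin.toFinset _ (by omega) (Or.inl (by rw [hS]; exact hI')), hS]
  · have hinf : I.Infinite := hfin
    have hinj : Set.InjOn (fun i : ℕ =>
        Nat.pair (Denumerable.eqv (Finset ℕ) {i}) (({i} : Finset ℕ).sup id + 1)) I := by
      intro a _ b _ hab
      have h1 := (Nat.pair_eq_pair.mp hab).1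
      have h2 := (Denumerable.eqv (Finset ℕ)).injective h1
      exact Finset.singleton_injective h2
    refine (hinf.image hinj).mono ?_
    rintro _ ⟨i, hi, rfl⟩
    show (↑(Fs 𝒦 _) : Set ℕ) ⊆ I
    rw [Fs_pair 𝒦 {i} _ le_rfl (Or.inr rfl)]
    simpa using hi

/-! ### The construction -/

section Construction

/-- the block boundaries -/
def M (g : ℕ) : ℕ → ℕ
  | 0 => 0
  | k + 1 => nx g (M g k)

open Classical in
/-- the set treated in a block: the elements of `B` up to `m` with index in `F`. -/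
noncomputable def sel (F : Finset ℕ) (B : Set ℕ) (m : ℕ) : Finset ℕ :=
  (range (m + 1)).filter (fun x => x ∈ B ∧ Nat.count (fun y => y ∈ B) x ∈ F)

/-- the finite sets constructed step by step -/
noncomputable def Ak (F : ℕ → Finset ℕ) (g : ℕ) : ℕ → Set ℕ
  | 0 => ∅
  | k + 1 => Ak F g k ∪ (Base g (M g k) ∪ Extra g (M g k) (sel (F k) (Ak F g k) (M g k)))

/-- the basis -/
def A (F : ℕ → Finset ℕ) (g : ℕ) : Set ℕ := {x | ∃ k, x ∈ Ak F g k}

variable (F : ℕ → Finset ℕ)

lemma nx_gt (g m : ℕ) : m < nx g m := by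
  have hw : W g m = (g + 2) * (m + 1) + 1 := rfl
  have hp : P g m = (g + 2) * W g m + 2 := rfl
  have hn : nx g m = (2 * g + 3) * P g m := rfl
  have h1 : m < W g m := by
    rw [hw]
    nlinarith
  have h2 : W g m < P g m := by
    rw [hp]
    nlinarith
  have h3 : P g m ≤ nx g m := by
    rw [hn]
    exact Nat.le_mul_of_pos_left _ (by omega)
  omega

lemma M_lt (g k : ℕ) : M g k < M g (k + 1) := nx_gt g (M g k)

lemma M_strictMono (g : ℕ) : StrictMono (M g) := strictMono_nat_of_lt_succ (M_lt g)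

lemma le_M (g k : ℕ) : k ≤ M g k := (M_strictMono g).id_le k

lemma base_bounds (g m x : ℕ) (hx : x ∈ Base g m) : m < x ∧ x ≤ nx g m := by
  have hw : W g m = (g + 2) * (m + 1) + 1 := rfl
  have hp : P g m = (g + 2) * W g m + 2 := rfl
  have hn : nx g m = (2 * g + 3) * P g m := rfl
  have hwm : 2 * (m + 1) < W g m := by
    rw [hw]
    nlinarith
  have hwp : 2 * W g m + 2 ≤ P g m := by
    rw [hp]
    nlinarith
  have ea : (2 * g + 3) * P g m = (g + 1) * P g m + (g + 2) * P g m := by ring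
  have eb : (g + 1) * P g m = g * P g m + P g m := by ring
  have ec : (g + 2) * P g m = (g + 1) * P g m + P g m := by ring
  rcases hx with h | h | h | h <;> constructor <;> omega

lemma extra_bounds (g m x : ℕ) (S : Finset ℕ) (hS : ∀ s ∈ S, s ≤ m) (hx : x ∈ Extra g m S) :
    m < x ∧ x ≤ nx g m := by
  have hw : W g m = (g + 2) * (m + 1) + 1 := rfl
  have hp : P g m = (g + 2) * W g m + 2 := rfl
  have hn : nx g m = (2 * g + 3) * P g m := rfl
  have hwm : 2 * (m + 1) < W g m := by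
    rw [hw]
    nlinarith
  have hwp : 2 * W g m + 2 ≤ P g m := by
    rw [hp]
    nlinarith
  have ea : (2 * g + 3) * P g m = g * P g m + (g + 3) * P g m := by ring
  have eb : (g + 3) * P g m = (g + 1) * P g m + P g m + P g m := by ring
  obtain ⟨s, hs, h⟩ := hx
  have := hS s hs
  constructor <;> omega

lemma mem_sel (F : Finset ℕ) (B : Set ℕ) (m s : ℕ) : s ∈ sel F B m ↔
    s ≤ m ∧ s ∈ B ∧ (open Classical in Nat.count (fun y => y ∈ B) s) ∈ F := by
  classical
  unfold sel
  rw [Finset.mem_filter, Finset.mem_range, Nat.lt_succ_iff]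

lemma sel_le (g k s : ℕ) (hs : s ∈ sel (F k) (Ak F g k) (M g k)) : s ≤ M g k :=
  ((mem_sel _ _ _ _).1 hs).1

lemma Ak_le (g k : ℕ) : ∀ x ∈ Ak F g k, x ≤ M g k := by
  induction k with
  | zero => exact fun x hx => absurd hx (Set.notMem_empty x)
  | succ k ih =>
    intro x hx
    rcases hx with h | h | h
    · exact (ih x h).trans (M_lt g k).le
    · exact (base_bounds g _ x h).2
    · exact (extra_bounds g _ x _ (fun s hs => sel_le F g k s hs) h).2

lemma Ak_mono (g : ℕ) : Monotone (Ak F g) :=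
  monotone_nat_of_le_succ fun _ => Set.subset_union_left

/-- an element of `A` below `M k` already lies in `Ak k`. -/
lemma mem_Ak_of_le (g k x : ℕ) (hx : x ∈ A F g) (hle : x ≤ M g k) : x ∈ Ak F g k := by
  obtain ⟨j, hj⟩ := hx
  rcases le_total j k with h | h
  · exact Ak_mono F g h hj
  · obtain ⟨d, rfl⟩ := Nat.exists_eq_add_of_le h
    clear h
    induction d with
    | zero => exact hj
    | succ d ih =>
      apply ih
      have hM : M g k ≤ M g (k + d) := (M_strictMono g).monotone (by omega)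
      rcases hj with h | h | h
      · exact h
      · have := (base_bounds g (M g (k + d)) x h).1
        omega
      · have := (extra_bounds g (M g (k + d)) x _ (fun s hs => sel_le F g (k + d) s hs) h).1
        omega

lemma mem_Ak_iff (g k x : ℕ) (hle : x ≤ M g k) : x ∈ Ak F g k ↔ x ∈ A F g :=
  ⟨fun h => ⟨k, h⟩, fun h => mem_Ak_of_le F g k x h hle⟩

open Classical in
lemma count_eq (g k x : ℕ) (hle : x ≤ M g k) :
    Nat.count (fun y => y ∈ Ak F g k) x = Nat.count (fun y => y ∈ A F g) x := by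
  rw [Nat.count_eq_card_filter_range, Nat.count_eq_card_filter_range]
  congr 1
  apply Finset.filter_congr
  intro y hy
  rw [Finset.mem_range] at hy
  exact mem_Ak_iff F g k y (by omega)

open Classical in
lemma mem_sel' (g k s : ℕ) : s ∈ sel (F k) (Ak F g k) (M g k) ↔
    s ≤ M g k ∧ s ∈ A F g ∧ Nat.count (fun y => y ∈ A F g) s ∈ F k := by
  rw [mem_sel]
  constructor
  · rintro ⟨h1, h2, h3⟩
    refine ⟨h1, (mem_Ak_iff F g k s h1).1 h2, ?_⟩
    rw [← count_eq F g k s h1]
    exact h3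
  · rintro ⟨h1, h2, h3⟩
    refine ⟨h1, (mem_Ak_iff F g k s h1).2 h2, ?_⟩
    rw [← count_eq F g k s h1] at h3
    exact h3

lemma base_sub_A (g k : ℕ) : Base g (M g k) ⊆ A F g :=
  fun _ hx => ⟨k + 1, Or.inr (Or.inl hx)⟩

lemma extra_sub_A (g k : ℕ) : Extra g (M g k) (sel (F k) (Ak F g k) (M g k)) ⊆ A F g :=
  fun _ hx => ⟨k + 1, Or.inr (Or.inr hx)⟩

lemma first_mem (g k : ℕ) : M g k + 1 ∈ A F g := by
  apply base_sub_A F g k
  left
  omega

lemma A_infinite (g : ℕ) : (A F g).Infinite := by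
  have hinj : Function.Injective (fun k => M g k + 1) := by
    intro a b hab
    exact (M_strictMono g).injective (by simpa using hab)
  refine (Set.infinite_range_of_injective hinj).mono ?_
  rintro _ ⟨k, rfl⟩
  exact first_mem F g k

open Classical in
/-- at least `k` elements of `A` are at most `M k`. -/
lemma le_count (g k : ℕ) : k ≤ Nat.count (fun y => y ∈ A F g) (M g k + 1) := by
  induction k with
  | zero => exact Nat.zero_le _
  | succ k ih =>
    have h1 : M g k + 1 + 1 ≤ M g (k + 1) + 1 := by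
      have := M_lt g k
      omega
    refine le_trans ?_ (Nat.count_monotone _ h1)
    rw [Nat.count_succ, if_pos (first_mem F g k)]
    omega

open Classical in
/-- the index `i < k` occurs below `M k`. -/
lemma exists_index (g k i : ℕ) (hi : i < k) :
    ∃ x, x ≤ M g k ∧ x ∈ A F g ∧ Nat.count (fun y => y ∈ A F g) x = i := by
  have hinf : (setOf (fun y => y ∈ A F g)).Infinite := A_infinite F g
  refine ⟨Nat.nth (fun y => y ∈ A F g) i, ?_, Nat.nth_mem_of_infinite hinf i,
    Nat.count_nth_of_infinite hinf i⟩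
  have h1 : i < Nat.count (fun y => y ∈ A F g) (M g k + 1) := lt_of_lt_of_le hi (le_count F g k)
  have := Nat.nth_lt_of_lt_count h1
  omega

/-- all numbers in the `k`-th range apart from the special one are sums of `h` elements of `A`
exceeding `M k`. -/
lemma cover_stage (g k N : ℕ) (h1 : (g + 2) * (M g k + 1) ≤ N)
    (h2 : N < (g + 2) * (M g (k + 1) + 1)) (hne : N ≠ M g (k + 1)) :
    ∃ T : Multiset ℕ, T.card = g + 2 ∧ (∀ x ∈ T, x ∈ A F g ∧ M g k < x) ∧ T.sum = N := by
  have hM : M g (k + 1) = nx g (M g k) := rfl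
  by_cases hN : N ≤ nx g (M g k) + (g + 1) * (M g k + 1)
  · obtain ⟨T, hT1, hT2, hT3⟩ := cover_block g (M g k) N h1 hN (hM ▸ hne)
    exact ⟨T, hT1, fun x hx => ⟨base_sub_A F g k (hT2 x hx), (base_bounds g _ x (hT2 x hx)).1⟩,
      hT3⟩
  · have hw : W g (M g (k + 1)) = (g + 2) * (M g (k + 1) + 1) + 1 := rfl
    refine ⟨(N - (g + 1) * (M g k + 1)) ::ₘ Multiset.replicate (g + 1) (M g k + 1), by simp,
      ?_, ?_⟩
    · intro x hx
      rcases Multiset.mem_cons.1 hx with rfl | hx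
      · refine ⟨base_sub_A F g (k + 1) (Or.inl ⟨by omega, by omega⟩), ?_⟩
        have := M_lt g k
        omega
      · rw [Multiset.eq_of_mem_replicate hx]
        refine ⟨base_sub_A F g k (Or.inl ⟨le_rfl, by omega⟩), by omega⟩
    · rw [Multiset.sum_cons, Multiset.sum_replicate, smul_eq_mul]
      omega

/-- representation of the special number through an element `s` of the selected set -/
lemma special_rep (g k s : ℕ) (hs : s ∈ sel (F k) (Ak F g k) (M g k)) :
    ∃ b p : ℕ, b ∈ A F g ∧ p ∈ A F g ∧ M g k < b ∧ M g k < p ∧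
      (b ::ₘ s ::ₘ Multiset.replicate g p).sum = M g (k + 1) := by
  set m := M g k with hm
  have hsm : s ≤ m := sel_le F g k s hs
  have hw : W g m = (g + 2) * (m + 1) + 1 := rfl
  have hp : P g m = (g + 2) * W g m + 2 := rfl
  have hn : M g (k + 1) = (2 * g + 3) * P g m := rfl
  have ea : (2 * g + 3) * P g m = g * P g m + (g + 3) * P g m := by ring
  have eb : (g + 3) * P g m = (g + 2) * P g m + P g m := by ring
  have hwm : 2 * (m + 1) < W g m := by
    rw [hw]
    nlinarith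
  have hwp : 2 * W g m + 2 ≤ P g m := by
    rw [hp]
    nlinarith
  have hbE : (g + 3) * P g m - s ∈ Extra g m (sel (F k) (Ak F g k) m) := ⟨s, hs, by omega⟩
  refine ⟨(g + 3) * P g m - s, P g m, extra_sub_A F g k hbE, base_sub_A F g k (Or.inr (Or.inl rfl)),
    by omega, by omega, ?_⟩
  rw [Multiset.sum_cons, Multiset.sum_cons, Multiset.sum_replicate, smul_eq_mul]
  omega

/-- the special number has no representation avoiding the selected set -/
lemma special_no_rep (g k : ℕ) (S : Set ℕ)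
    (hS : (↑(sel (F k) (Ak F g k) (M g k)) : Set ℕ) ⊆ S) :
    ¬ SumOf (A F g \ S) (g + 2) (M g (k + 1)) := by
  rintro ⟨T, hT1, hT2, hT3⟩
  refine no_rep g (M g k) (sel (F k) (Ak F g k) (M g k)) (fun s hs => sel_le F g k s hs) T hT1 ?_ hT3
  intro x hx
  have hxs : x ≤ M g (k + 1) := hT3 ▸ Multiset.le_sum_of_mem hx
  have hxA := mem_Ak_of_le F g (k + 1) x (hT2 x hx).1 hxs
  rcases hxA with h | h | h
  · exact Or.inl ⟨Ak_le F g k x h, fun h' => (hT2 x hx).2 (hS h')⟩
  · exact Or.inr (Or.inl h)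
  · exact Or.inr (Or.inr h)

/-- removing a finite set which contains only finitely many of the selected sets -/
lemma removal_small (g : ℕ) (S : Set ℕ) (hfin : S.Finite)
    (hsel : {k | (↑(sel (F k) (Ak F g k) (M g k)) : Set ℕ) ⊆ S}.Finite) :
    ∃ N₀, ∀ N, N₀ ≤ N → SumOf (A F g \ S) (g + 2) N := by
  obtain ⟨K1, hK1⟩ := hfin.bddAbove
  obtain ⟨K2, hK2⟩ := hsel.bddAbove
  obtain ⟨K, hKdef⟩ : ∃ K, K = K1 + K2 + 1 := ⟨_, rfl⟩
  refine ⟨(g + 2) * (M g K + 1), fun N hN => ?_⟩
  -- the range containing `N`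
  obtain ⟨k, hKk, hk1, hk2⟩ : ∃ k, K ≤ k ∧ (g + 2) * (M g k + 1) ≤ N ∧
      N < (g + 2) * (M g (k + 1) + 1) := by
    by_contra hcon
    push Not at hcon
    have hall : ∀ k, K ≤ k → (g + 2) * (M g k + 1) ≤ N := by
      intro k hk
      induction k, hk using Nat.le_induction with
      | base => exact hN
      | succ k hk ih => exact hcon k hk ih
    have h1 := hall (K + N) (by omega)
    have h2 := le_M g (K + N)
    nlinarith
  have hMK : K ≤ M g k := hKk.trans (le_M g k)
  have hbig : ∀ x, M g k < x → x ∉ S := fun x hx hxS => by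
    have := hK1 hxS
    omega
  by_cases hne : N = M g (k + 1)
  · -- the special number
    have : ∃ s ∈ sel (F k) (Ak F g k) (M g k), s ∉ S := by
      by_contra hcon
      push Not at hcon
      have h1 : k ≤ K2 := hK2 (show k ∈ {k | (↑(sel (F k) (Ak F g k) (M g k)) : Set ℕ) ⊆ S} from
        hcon)
      omega
    obtain ⟨s, hs, hsS⟩ := this
    obtain ⟨b, p, hb, hp, hbm, hpm, hsum⟩ := special_rep F g k s hs
    refine ⟨b ::ₘ s ::ₘ Multiset.replicate g p, by simp, ?_, by rw [hsum, hne]⟩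
    intro x hx
    rcases Multiset.mem_cons.1 hx with rfl | hx
    · exact ⟨hb, hbig _ hbm⟩
    · rcases Multiset.mem_cons.1 hx with rfl | hx
      · exact ⟨((mem_sel' F g k _).1 hs).2.1, hsS⟩
      · rw [Multiset.eq_of_mem_replicate hx]
        exact ⟨hp, hbig _ hpm⟩
  · obtain ⟨T, hT1, hT2, hT3⟩ := cover_stage F g k N hk1 hk2 hne
    exact ⟨T, hT1, fun x hx => ⟨(hT2 x hx).1, hbig x (hT2 x hx).2⟩, hT3⟩

/-- removing a set which contains infinitely many of the selected sets -/
lemma removal_large (g : ℕ) (S : Set ℕ)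
    (hsel : {k | (↑(sel (F k) (Ak F g k) (M g k)) : Set ℕ) ⊆ S}.Infinite)
    (N₀ : ℕ) : ∃ N, N₀ ≤ N ∧ ¬ SumOf (A F g \ S) (g + 2) N := by
  obtain ⟨k, hk, hkN⟩ := hsel.exists_gt N₀
  refine ⟨M g (k + 1), ?_, special_no_rep F g k S hk⟩
  have := le_M g (k + 1)
  omega

open Classical in
/-- the main statement for a sequence of index sets -/
lemma main (hF : ∀ k, ∀ i ∈ F k, i < k) (g : ℕ) (I : Set ℕ) :
    (I.Finite ∧ {k | (↑(F k) : Set ℕ) ⊆ I}.Finite →
      IsAsymptoticBasis (g + 2)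
        (A F g \ {x | x ∈ A F g ∧ Nat.count (fun y => y ∈ A F g) x ∈ I})) ∧
    ({k | (↑(F k) : Set ℕ) ⊆ I}.Infinite →
      ¬ IsAsymptoticBasis (g + 2)
        (A F g \ {x | x ∈ A F g ∧ Nat.count (fun y => y ∈ A F g) x ∈ I})) := by
  set S : Set ℕ := {x | x ∈ A F g ∧ Nat.count (fun y => y ∈ A F g) x ∈ I} with hS
  have hiff : ∀ k, (↑(sel (F k) (Ak F g k) (M g k)) : Set ℕ) ⊆ S ↔ (↑(F k) : Set ℕ) ⊆ I := by
    intro k
    constructor
    · intro h i hi
      obtain ⟨x, hx1, hx2, hx3⟩ := exists_index F g k i (hF k i hi)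
      have h1 : x ∈ sel (F k) (Ak F g k) (M g k) := by
        rw [mem_sel']
        refine ⟨hx1, hx2, ?_⟩
        rw [hx3]
        exact hi
      have h2 := (h h1).2
      rwa [hx3] at h2
    · intro h x hx
      rw [Finset.mem_coe, mem_sel'] at hx
      exact ⟨hx.2.1, h hx.2.2⟩
  have hset : {k | (↑(sel (F k) (Ak F g k) (M g k)) : Set ℕ) ⊆ S}
      = {k | (↑(F k) : Set ℕ) ⊆ I} := by
    ext k
    exact hiff k
  constructor
  · rintro ⟨h1, h2⟩
    have hSfin : S.Finite := by
      have hinj : Set.InjOn (Nat.count (fun y => y ∈ A F g)) S := by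
        intro a ha b hb hab
        exact Nat.count_injective ha.1 hb.1 hab
      refine Set.Finite.of_finite_image (h1.subset ?_) hinj
      rintro _ ⟨x, hx, rfl⟩
      exact hx.2
    obtain ⟨N₀, hN₀⟩ := removal_small F g S hSfin (by rw [hset]; exact h2)
    refine (Set.finite_lt_nat N₀).subset ?_
    intro N hN
    by_contra hcon
    apply hN
    rw [inSumset_iff]
    exact hN₀ N (not_lt.1 hcon)
  · intro h1 hb
    obtain ⟨K, hK⟩ := hb.bddAbove
    obtain ⟨N, hN, hnot⟩ := removal_large F g S (by rw [hset]; exact h1) (K + 1)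
    have : N ≤ K := hK (by
      show ¬ InSumset (A F g \ S) (g + 2) N
      rwa [inSumset_iff])
    omega

end Construction

/-- **Theorem.** Every nonempty hereditary family of finite sets of indices is the family of the
removable sets of an asymptotic basis of order `h`. -/
theorem hereditary (h : ℕ) (hh : 2 ≤ h) (𝒦 : Set (Set ℕ)) (hfin : ∀ I ∈ 𝒦, I.Finite)
    (hher : ∀ I ∈ 𝒦, ∀ J ⊆ I, J ∈ 𝒦) :
    ∃ a : ℕ → ℕ, StrictMono a ∧
      ∀ I : Set ℕ, IsAsymptoticBasis h {x | ∃ i, i ∉ I ∧ a i = x} ↔ I ∈ 𝒦 := by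
  classical
  obtain ⟨g, rfl⟩ := Nat.exists_eq_add_of_le' hh
  have hinf : (setOf (fun y => y ∈ A (Fs 𝒦) g)).Infinite := A_infinite (Fs 𝒦) g
  refine ⟨Nat.nth (fun y => y ∈ A (Fs 𝒦) g), Nat.nth_strictMono hinf, ?_⟩
  intro I
  have hset : {x | ∃ i, i ∉ I ∧ Nat.nth (fun y => y ∈ A (Fs 𝒦) g) i = x} =
      A (Fs 𝒦) g \ {x | x ∈ A (Fs 𝒦) g ∧ Nat.count (fun y => y ∈ A (Fs 𝒦) g) x ∈ I} := by
    ext x
    constructor
    · rintro ⟨i, hi, rfl⟩
      refine ⟨Nat.nth_mem_of_infinite hinf i, ?_⟩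
      rintro ⟨_, h2⟩
      rw [Nat.count_nth_of_infinite hinf] at h2
      exact hi h2
    · rintro ⟨hx1, hx2⟩
      refine ⟨Nat.count (fun y => y ∈ A (Fs 𝒦) g) x, fun h => hx2 ⟨hx1, h⟩, ?_⟩
      exact Nat.nth_count hx1
  rw [hset]
  obtain ⟨m1, m2⟩ := main (Fs 𝒦) (fun k i hi => Fs_lt 𝒦 k i hi) g I
  constructor
  · intro hb
    by_contra hI
    exact m2 (Fs_infinite 𝒦 I (Or.inl hI)) hb
  · intro hI
    exact m1 ⟨hfin I hI, Fs_finite 𝒦 hher I hI (hfin I hI)⟩

end Pool.Agent.Y973.RM
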